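import Pool.Agent.H921.QW.Defs

set_option autoImplicit false

namespace Pool.Agent.H921.QW

open Filter Topology MeasureTheory Pool.Agent.N795.PI Pool.Agent.N774.PIA Pool.Agent.H921.QP

variable {N : E3 → ℝ} {ρ : ℝ → ℝ} {h : Fin 3 → Fin 3 → E3 → ℝ} {t0 m : ℝ}

section
variable (D : IsQW N ρ h t0 m)
include D

lemma IsQW.ten : SmoothTen h :=
  ⟨D.symm, fun i j x hx => (D.smoothH i j x hx).of_le (by exact_mod_cast (le_top : (1 : ℕ∞) ≤ ⊤))⟩

lemma IsQW.cN {x : E3} (hx : x ≠ 0) : ContDiffAt ℝ 2 N x :=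
  (D.smoothN x hx).of_le (show ((2 : ℕ∞) : WithTop ℕ∞) ≤ ((⊤ : ℕ∞) : WithTop ℕ∞) from WithTop.coe_le_coe.2 le_top)

lemma IsQW.cR {t : ℝ} (ht : 0 < t) : ContDiffAt ℝ 2 ρ t :=
  (D.smoothR t ht).of_le (show ((2 : ℕ∞) : WithTop ℕ∞) ≤ ((⊤ : ℕ∞) : WithTop ℕ∞) from WithTop.coe_le_coe.2 le_top)

lemma IsQW.cdR {t : ℝ} (ht : 0 < t) : ContDiffAt ℝ 1 (deriv ρ) t := by
  have h1 : ContDiffAt ℝ 1 (fderiv ℝ ρ) t := (D.cR ht).fderiv_right (by norm_num)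
  have h2 : ContDiffAt ℝ 1 (fun s => fderiv ℝ ρ s 1) t := h1.clm_apply contDiffAt_const
  exact h2

lemma IsQW.hR {t : ℝ} (ht : 0 < t) : HasDerivAt ρ (deriv ρ t) t :=
  ((D.cR ht).differentiableAt (by norm_num)).hasDerivAt

lemma IsQW.hdR {t : ℝ} (ht : 0 < t) : HasDerivAt (deriv ρ) (deriv (deriv ρ) t) t :=
  ((D.cdR ht).differentiableAt (by norm_num)).hasDerivAt

lemma IsQW.cRn {x : E3} (hx : x ≠ 0) : ContDiffAt ℝ 1 (fun y : E3 => ρ ‖y‖) x :=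
  ((D.cR (norm_pos_iff.2 hx)).of_le (by norm_num)).comp x (contDiffAt_norm ℝ hx)

lemma IsQW.cdRn {x : E3} (hx : x ≠ 0) : ContDiffAt ℝ 1 (fun y : E3 => deriv ρ ‖y‖) x :=
  (D.cdR (norm_pos_iff.2 hx)).comp x (contDiffAt_norm ℝ hx)

lemma IsQW.ctr {x : E3} (hx : x ≠ 0) : ContDiffAt ℝ 1 (trSph ρ h) x := by
  have h1 : ContDiffAt ℝ 1 (fun y : E3 => (‖y‖ / ρ ‖y‖) ^ 2) x :=
    ((contDiffAt_norm ℝ hx).div (D.cRn hx) (D.posR _ (norm_pos_iff.2 hx)).ne').pow 2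
  exact h1.mul ((cd_trE D.ten hx).sub (cd_lam D.ten hx))

lemma IsQW.cH {x : E3} (hx : x ≠ 0) : ContDiffAt ℝ 1 (Hs N ρ) x := by
  have h1 : ContDiffAt ℝ 1 (fun y : E3 => 2 * deriv ρ ‖y‖) x := contDiffAt_const.mul (D.cdRn hx)
  have h2 : ContDiffAt ℝ 1 (fun y : E3 => ρ ‖y‖ * N y) x :=
    (D.cRn hx).mul ((D.cN hx).of_le (by norm_num))
  exact h1.div h2 (mul_pos (D.posR _ (norm_pos_iff.2 hx)) (D.posN x hx)).ne'

lemma IsQW.dN {x : E3} (hx : x ≠ 0) : DifferentiableAt ℝ N x :=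
  (D.cN hx).differentiableAt (by norm_num)

/-- the ray through a point -/
lemma IsQW.ray_norm {x : E3} (hx : x ≠ 0) {s : ℝ} (hs : 0 < s) : ‖(s / ‖x‖) • x‖ = s := by
  have hn := norm_pos_iff.2 hx
  rw [norm_smul, Real.norm_eq_abs, abs_of_pos (div_pos hs hn), div_mul_cancel₀ _ hn.ne']

lemma IsQW.ray_ne {x : E3} (hx : x ≠ 0) {s : ℝ} (hs : 0 < s) : (s / ‖x‖) • x ≠ 0 :=
  smul_ne_zero (div_pos hs (norm_pos_iff.2 hx)).ne' hx

lemma IsQW.drH {x : E3} (hx : x ≠ 0) : dr (Hs N ρ) x =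
    2 * (deriv (deriv ρ) ‖x‖ * ρ ‖x‖ - deriv ρ ‖x‖ ^ 2) / (ρ ‖x‖ ^ 2 * N x)
      - 2 * deriv ρ ‖x‖ * dr N x / (ρ ‖x‖ * N x ^ 2) := by
  have hn := norm_pos_iff.2 hx
  have hr := (D.posR _ hn).ne'
  have hN := (D.posN x hx).ne'
  have h1 := ray_deriv hx ((D.cH hx).differentiableAt (by norm_num))
  have h2 := ray_deriv hx (D.dN hx)
  have h3 : HasDerivAt (fun s : ℝ => 2 * deriv ρ s / (ρ s * N ((s / ‖x‖) • x)))
      ((2 * deriv (deriv ρ) ‖x‖ * (ρ ‖x‖ * N ((‖x‖ / ‖x‖) • x)) - 2 * deriv ρ ‖x‖ *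
        (deriv ρ ‖x‖ * N ((‖x‖ / ‖x‖) • x) + ρ ‖x‖ * dr N x)) /
        (ρ ‖x‖ * N ((‖x‖ / ‖x‖) • x)) ^ 2) ‖x‖ := by
    refine ((D.hdR hn).const_mul 2).div ((D.hR hn).mul h2) ?_
    rw [div_self hn.ne', one_smul]
    exact mul_ne_zero hr hN
  have h4 : (fun s : ℝ => Hs N ρ ((s / ‖x‖) • x)) =ᶠ[𝓝 ‖x‖]
      fun s : ℝ => 2 * deriv ρ s / (ρ s * N ((s / ‖x‖) • x)) := by
    filter_upwards [lt_mem_nhds hn] with s hs
    rw [Hs, D.ray_norm hx hs]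
  have h5 := h1.congr_of_eventuallyEq h4.symm
  have h6 := h5.unique h3
  rw [h6, div_self hn.ne', one_smul]
  field_simp
  ring

lemma IsQW.drot {x : E3} (hx : x ≠ 0) (i j : Fin 3) : ContDiffAt ℝ 1 (rot i j N) x := by
  have h1 : ∀ k : Fin 3, ContDiffAt ℝ 1 (pd k N) x := by
    intro k
    have h2 : ContDiffAt ℝ 1 (fderiv ℝ N) x := (D.cN hx).fderiv_right (by norm_num)
    exact h2.clm_apply contDiffAt_const
  exact ((co i x).mul (h1 j)).sub ((co j x).mul (h1 i))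

lemma IsQW.lap_eq {x : E3} (hx : x ≠ 0) : lapS N x / N x =
    1 / 2 * rr N x + 1 / 2 * (∑ i, ∑ j, (x i * pd j N x - x j * pd i N x) ^ 2) / N x ^ 2 := by
  have hN := (D.posN x hx).ne'
  have h1 : ∀ i j, rot i j (fun y => rot i j N y / N y) x =
      rot i j (rot i j N) x / N x - (x i * pd j N x - x j * pd i N x) ^ 2 / N x ^ 2 := by
    intro i j
    rw [rot_div' ((D.drot hx i j).differentiableAt (by norm_num)) (D.dN hx) hN]
    have h2 : rot i j N x = x i * pd j N x - x j * pd i N x := rfl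
    rw [h2]
    ring
  unfold rr lapS
  simp only [h1, Finset.sum_sub_distrib, ← Finset.sum_div]
  ring

lemma IsQW.div_eq {x : E3} (hx : x ≠ 0) :
    (∑ i, pd i (fun y => N y * tanV h i y) x) / N x ^ 2 =
      dv N h x + 2 * (∑ i, tanV h i x * pd i N x) / N x ^ 2 := by
  have hN := (D.posN x hx).ne'
  have hV : ∀ i, DifferentiableAt ℝ (tanV h i) x := fun i =>
    (cd_tanV D.ten i hx).differentiableAt (by norm_num)
  unfold dv
  have h1 : ∀ i, pd i (fun y => N y * tanV h i y) x = pd i N x * tanV h i x +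
      N x * pd i (tanV h i) x := fun i => pd_mul' (D.dN hx) (hV i) i
  have h2 : ∀ i, pd i (fun y => tanV h i y / N y) x = pd i (tanV h i) x / N x -
      tanV h i x * pd i N x / N x ^ 2 := fun i => pd_div' (hV i) (D.dN hx) hN i
  simp only [h1, h2, Fin.sum_univ_three]
  field_simp
  ring


lemma IsQW.c1N (x : E3) (hx : x ≠ 0) : ContDiffAt ℝ 1 N x := (D.cN hx).of_le (by norm_num)

lemma IsQW.c1V (i : Fin 3) (x : E3) (hx : x ≠ 0) :
    ContDiffAt ℝ 1 (fun y => tanV h i y / N y) x :=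
  (cd_tanV D.ten i hx).div (D.c1N x hx) (D.posN x hx).ne'

lemma IsQW.c1Q (x : E3) (hx : x ≠ 0) : ContDiffAt ℝ 1 (fun y => (N y ^ 2)⁻¹) x :=
  ((D.c1N x hx).pow 2).inv (pow_ne_zero 2 (D.posN x hx).ne')

lemma IsQW.c1rot (i j : Fin 3) (x : E3) (hx : x ≠ 0) :
    ContDiffAt ℝ 1 (fun y => rot i j N y / N y) x :=
  (D.drot hx i j).div (D.c1N x hx) (D.posN x hx).ne'

lemma IsQW.co_dv : CO (dv N h) := by
  unfold dv
  exact co_sum _ fun i => co_pd (D.c1V i) i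

lemma IsQW.co_rr : CO (rr N) := by
  unfold rr
  exact co_sum _ fun i => co_sum _ fun j => co_rot (D.c1rot i j) i j

lemma IsQW.mean_dv {t : ℝ} (ht : 0 < t) : mean (dv N h) t = 0 := by
  rw [mean_eq]
  refine mean_div (V := fun i y => tanV h i y / N y) (fun i x hx => D.c1V i x hx)
    (fun x hx => ?_) ht
  have h1 := tanV_orth (h := h) hx
  have h2 : ∑ i, tanV h i x / N x * x i = (∑ i, tanV h i x * x i) / N x := by
    rw [Finset.sum_div]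
    refine Finset.sum_congr rfl fun i _ => ?_
    ring
  rw [h2, h1, zero_div]

lemma IsQW.mean_rr {t : ℝ} (ht : 0 < t) : mean (rr N) t = 0 := by
  have h1 : mean (rr N) t = ∑ i, ∑ j, mean (rot i j (fun y => rot i j N y / N y)) t := by
    unfold rr
    rw [mean_sum _ (fun i => co_sum _ fun j => co_rot (D.c1rot i j) i j) ht]
    refine Finset.sum_congr rfl fun i _ => ?_
    rw [mean_sum _ (fun j => co_rot (D.c1rot i j) i j) ht]
  rw [h1]
  refine Finset.sum_eq_zero fun i _ => Finset.sum_eq_zero fun j _ => ?_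
  exact mean_rot (D.c1rot i j) ht i j

lemma IsQW.dr_inv {x : E3} (hx : x ≠ 0) :
    dr (fun y => (N y ^ 2)⁻¹) x = -2 * (dr N x / N x ^ 3) := by
  have hN := (D.posN x hx).ne'
  have hd := D.dN hx
  have g : HasDerivAt (fun s : ℝ => (s ^ 2)⁻¹) (-(2 * N x) / (N x ^ 2) ^ 2) (N x) := by
    have h0 := (hasDerivAt_pow 2 (N x)).fun_inv (pow_ne_zero 2 hN)
    simpa using h0
  have h1 := (g.comp_hasFDerivAt x hd.hasFDerivAt).fderiv
  have h2 : fderiv ℝ (fun y => (N y ^ 2)⁻¹) x x = -2 * fderiv ℝ N x x / N x ^ 3 := by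
    have h3 : fderiv ℝ (fun y => (N y ^ 2)⁻¹) x =
        (-(2 * N x) / (N x ^ 2) ^ 2) • fderiv ℝ N x := h1
    rw [h3]
    simp only [smul_apply, smul_eq_mul]
    field_simp
  rw [dr, h2, dr]
  ring

lemma IsQW.co_dr3 : CO (fun x => dr N x / N x ^ 3) := by
  intro x hx
  have h1 : ContDiffAt ℝ 0 (fderiv ℝ N) x := (D.c1N x hx).fderiv_right (by norm_num)
  have h2 : ContinuousAt (fun y => fderiv ℝ N y y) x := h1.continuousAt.clm_apply continuousAt_id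
  have h3 : ContinuousAt (dr N) x := h2.div continuousAt_id.norm (norm_ne_zero_iff.2 hx)
  exact h3.div ((D.c1N x hx).continuousAt.pow 3) (pow_ne_zero 3 (D.posN x hx).ne')

lemma IsQW.co_q : CO (fun x => (N x ^ 2)⁻¹) := fun x hx => (D.c1Q x hx).continuousAt

lemma IsQW.hqq {t : ℝ} (ht : 0 < t) :
    HasDerivAt (qq N) (-2 * mean (fun x => dr N x / N x ^ 3) t) t := by
  have h1 := mean_deriv D.c1Q ht
  have h2 : ∫ w : S2, fderiv ℝ (fun y => (N y ^ 2)⁻¹) (t • (w : E3)) (w : E3) ∂nu =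
      -2 * mean (fun x => dr N x / N x ^ 3) t := by
    rw [← mean_smul, mean_eq]
    refine integral_congr_ae (Eventually.of_forall fun w => ?_)
    change fderiv ℝ (fun y => (N y ^ 2)⁻¹) (t • (w : E3)) (w : E3) =
      -2 * (dr N (t • (w : E3)) / N (t • (w : E3)) ^ 3)
    rw [← dr_tw ht w, D.dr_inv (tw_ne ht w)]
  rw [h2] at h1
  exact h1

/-- the derivative of the averaged mass aspect -/
lemma IsQW.hmb {b : ℝ → ℝ} {t : ℝ} (ht : 0 < t) (hbd : HasDerivAt b (deriv b t) t) :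
    HasDerivAt (mb N ρ b) (mean (Gf N ρ b) t) t := by
  have h1 : mean (Gf N ρ b) t =
      deriv ρ t / 2 + ((-(deriv ρ t / 2 * (deriv ρ t ^ 2 - ρ t ^ 2 * b t ^ 2)) - ρ t / 2 *
        (2 * deriv ρ t * deriv (deriv ρ) t - 2 * ρ t * deriv ρ t * b t ^ 2
          - 2 * ρ t ^ 2 * b t * deriv b t)) * qq N t +
        ρ t * (deriv ρ t ^ 2 - ρ t ^ 2 * b t ^ 2) * mean (fun x => dr N x / N x ^ 3) t) := by
    have h2 : mean (Gf N ρ b) t = mean (fun x => deriv ρ t / 2 +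
        ((-(deriv ρ t / 2 * (deriv ρ t ^ 2 - ρ t ^ 2 * b t ^ 2)) - ρ t / 2 *
        (2 * deriv ρ t * deriv (deriv ρ) t - 2 * ρ t * deriv ρ t * b t ^ 2
          - 2 * ρ t ^ 2 * b t * deriv b t)) * (N x ^ 2)⁻¹ +
        ρ t * (deriv ρ t ^ 2 - ρ t ^ 2 * b t ^ 2) * (dr N x / N x ^ 3))) t := by
      refine mean_congr ht fun x hx => ?_
      have hx0 : x ≠ 0 := by
        rw [← norm_pos_iff, hx]
        exact ht
      have hN := (D.posN x hx0).ne'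
      rw [Gf, hx]
      field_simp
      ring
    rw [h2, mean_add (cc _) (ca (cm _ D.co_q) (cm _ D.co_dr3)) ht,
      mean_add (cm _ D.co_q) (cm _ D.co_dr3) ht, mean_smul, mean_smul, mean_const]
    rfl
  rw [h1]
  have h3 := (D.hR ht).div_const 2
  have h4 := D.hdR ht
  have h5 := D.hR ht
  have h6 := hbd
  have h7 := D.hqq ht
  have h8 := h3.mul (((((h4.pow 2).sub ((h5.pow 2).mul (h6.pow 2))).mul h7)).const_sub 1)
  refine (h8.congr_deriv ?_)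
  norm_num
  ring


theorem IsQW.bound : ∃ K T : ℝ, 0 ≤ K ∧ 1 ≤ T ∧ (∀ t, T ≤ t → ρ t = t) ∧
    ∀ x : E3, T ≤ ‖x‖ → 1 / 2 ≤ N x ∧ N x ≤ 2 ∧ |trSph ρ h x| ≤ K / ‖x‖ ^ 2 := by
  obtain ⟨T0', hT0'⟩ := D.endR
  obtain ⟨C1, R1, hC1'⟩ := D.endN
  obtain ⟨C', R2, hC'⟩ := D.endH
  obtain ⟨T0, hT0d⟩ : ∃ T0, T0 = max T0' (max R1 R2) := ⟨_, rfl⟩
  obtain ⟨C, hCd⟩ : ∃ C, C = |C'| := ⟨_, rfl⟩
  have hC0 : 0 ≤ C := by
    rw [hCd]
    exact abs_nonneg _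
  have hT0 : ∀ t : ℝ, T0 ≤ t → ρ t = t := fun t ht =>
    hT0' t (le_trans (le_max_left _ _) (hT0d ▸ ht))
  have hC1 : ∀ x : E3, T0 ≤ ‖x‖ → |N x - 1| ≤ C1 / ‖x‖ ∧ ∀ i, |pd i N x| ≤ C1 / ‖x‖ ^ 2 :=
    fun x hx => hC1' x (le_trans (le_trans (le_max_left _ _) (le_max_right _ _)) (hT0d ▸ hx))
  have hC : ∀ x : E3, T0 ≤ ‖x‖ → 1 ≤ ‖x‖ → ∀ i j, |h i j x| ≤ C / ‖x‖ ^ 2 := by
    intro x hx hx1 i j
    refine (hC' x (le_trans (le_trans (le_max_right _ _) (le_max_right _ _)) (hT0d ▸ hx)) i j).trans ?_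
    rw [hCd]
    gcongr
    exact le_abs_self _
  refine ⟨12 * C, max (max T0 1) (2 * |C1|), by positivity,
    le_trans (le_max_right _ _) (le_max_left _ _),
    fun t ht => hT0 t (le_trans (le_trans (le_max_left _ _) (le_max_left _ _)) ht), fun x hx => ?_⟩
  have hx1 : 1 ≤ ‖x‖ := le_trans (le_trans (le_max_right _ _) (le_max_left _ _)) hx
  have hx2 : 2 * |C1| ≤ ‖x‖ := le_trans (le_max_right _ _) hx
  have hx3 : ρ ‖x‖ = ‖x‖ := hT0 _ (le_trans (le_trans (le_max_left _ _) (le_max_left _ _)) hx)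
  have hxp : 0 < ‖x‖ := by linarith
  have hxT : T0 ≤ ‖x‖ := le_trans (le_trans (le_max_left _ _) (le_max_left _ _)) hx
  have h1 := (hC1 x hxT).1
  have h2 : C1 / ‖x‖ ≤ 1 / 2 := by
    rw [div_le_iff₀ hxp]
    have := le_abs_self C1
    linarith
  have h3 := abs_le.1 (h1.trans h2)
  refine ⟨by linarith, by linarith, ?_⟩
  have hb := hC x hxT hx1
  have hxi : ∀ i, |x i| ≤ ‖x‖ := fun i => by
    have h3 : x i ^ 2 ≤ ‖x‖ ^ 2 := by
      rw [EuclideanSpace.norm_sq_eq]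
      have := Finset.single_le_sum (f := fun i => ‖x i‖ ^ 2) (fun i _ => sq_nonneg _)
        (Finset.mem_univ i)
      simpa [Real.norm_eq_abs, sq_abs] using this
    exact abs_le_of_sq_le_sq h3 hxp.le
  have h4 : |trE h x| ≤ 3 * (C / ‖x‖ ^ 2) := by
    rw [trE]
    refine (Finset.abs_sum_le_sum_abs _ _).trans ?_
    calc ∑ i, |h i i x| ≤ ∑ _i : Fin 3, C / ‖x‖ ^ 2 := Finset.sum_le_sum fun i _ => hb i i
      _ = 3 * (C / ‖x‖ ^ 2) := by simp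
  have h5 : |lam h x| ≤ 9 * (C / ‖x‖ ^ 2) := by
    rw [lam, abs_div, abs_of_pos (by positivity : 0 < ‖x‖ ^ 2), div_le_iff₀ (by positivity)]
    refine (Finset.abs_sum_le_sum_abs _ _).trans ?_
    calc ∑ i, |∑ j, h i j x * x i * x j| ≤ ∑ _i : Fin 3, 3 * (C / ‖x‖ ^ 2 * ‖x‖ ^ 2) := by
          refine Finset.sum_le_sum fun i _ => (Finset.abs_sum_le_sum_abs _ _).trans ?_
          calc ∑ j, |h i j x * x i * x j| ≤ ∑ _j : Fin 3, C / ‖x‖ ^ 2 * ‖x‖ ^ 2 := by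
                refine Finset.sum_le_sum fun j _ => ?_
                rw [abs_mul, abs_mul]
                calc |h i j x| * |x i| * |x j| ≤ C / ‖x‖ ^ 2 * ‖x‖ * ‖x‖ := by
                      gcongr
                      · exact hb i j
                      · exact hxi i
                      · exact hxi j
                  _ = C / ‖x‖ ^ 2 * ‖x‖ ^ 2 := by ring
            _ = 3 * (C / ‖x‖ ^ 2 * ‖x‖ ^ 2) := by simp
      _ = 9 * (C / ‖x‖ ^ 2) * ‖x‖ ^ 2 := by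
          simp
          ring
  rw [trSph, hx3, div_self hxp.ne', one_pow, one_mul]
  calc |trE h x - lam h x| ≤ |trE h x| + |lam h x| := abs_sub _ _
    _ ≤ 12 * (C / ‖x‖ ^ 2) := by linarith
    _ = 12 * C / ‖x‖ ^ 2 := by ring


end

end Pool.Agent.H921.QW
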