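import Pool.Agent.H921.QW.A

/-!
# Quasi-spherical data without a condition on the trace of `h`: the pointwise inequality
-/

set_option autoImplicit false

namespace Pool.Agent.H921.QW

open Filter Topology MeasureTheory Pool.Agent.N795.PI Pool.Agent.N774.PIA Pool.Agent.H921.QP

variable {N : E3 → ℝ} {ρ : ℝ → ℝ} {h : Fin 3 → Fin 3 → E3 → ℝ} {t0 m : ℝ}

lemma ident2 (r r1 b b1 n N1 hn D k k1 : ℝ) (hr : r ≠ 0) (hN : n ≠ 0) :
    (2*r1/(r*n))*(hn - (2*b/n)/2) - (2*b1/n - 2*b*N1/n^2)/n + D =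
      ((2*r1/(r*n))*(hn - k/2) - k1/n + D) + r1/(r*n)*(k - 2*b/n)
        + (k1 - 2*b1/n + 2*b*N1/n^2)/n := by
  field_simp
  ring

section
variable (D : IsQW N ρ h t0 m)
include D

theorem IsQW.ptw {x : E3} (hx : x ≠ 0) (hxt : t0 < ‖x‖) (b : ℝ → ℝ)
    (hw : ρ ‖x‖ * |b ‖x‖| ≤ deriv ρ ‖x‖) :
    ρ ‖x‖ * b ‖x‖ * ‖x‖ / 2 * dv N h x + deriv ρ ‖x‖ / 4 * rr N x -
      (ρ ‖x‖ ^ 2 * deriv ρ ‖x‖ / 4 * (2 * hnu N h x * (trSph ρ h x - 2 * b ‖x‖ / N x) +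
        (trSph ρ h x - 2 * b ‖x‖ / N x) ^ 2 / 2) +
      ρ ‖x‖ ^ 2 * deriv ρ ‖x‖ * b ‖x‖ * (trSph ρ h x - 2 * b ‖x‖ / N x) / N x +
      ρ ‖x‖ ^ 3 * b ‖x‖ / 2 * ((dr (trSph ρ h) x - 2 * deriv b ‖x‖ / N x +
        2 * b ‖x‖ * dr N x / N x ^ 2) / N x)) ≤
      Gf N ρ b x := by
  have hn := norm_pos_iff.2 hx
  have hr := D.posR _ hn
  have hN := D.posN x hx
  have hb := D.dec x hx hxt
  have hnsq := nsq_ge D.symm hx hN.ne' hr.ne'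
  have hlap := D.lap_eq hx
  have hdiv := D.div_eq hx
  have hH : Hs N ρ x = 2 * deriv ρ ‖x‖ / (ρ ‖x‖ * N x) := rfl
  have hdH := D.drH hx
  have hvx : tanV h 0 x * x 0 + tanV h 1 x * x 1 + tanV h 2 x * x 2 = 0 := by
    have := tanV_orth (h := h) hx
    rwa [Fin.sum_univ_three] at this
  have hq := quad_pos (fun i => pd i N x) (fun i => tanV h i x) (fun i => x i) ‖x‖ (deriv ρ ‖x‖)
    (ρ ‖x‖ * b ‖x‖) hn (norm_sq3 x) hvx (by
      rw [abs_mul, abs_of_pos hr]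
      exact hw)
  simp only at hq
  have hmu : 2 * muQ N ρ h x = scalQ N ρ x - nsq N ρ h x + trQ N ρ h x ^ 2 := by
    rw [muQ]
    ring
  have hJ : QP.Jnu N ρ h x = Hs N ρ x * (hnu N h x - trSph ρ h x / 2) - dr (trSph ρ h) x / N x
    + dQ N ρ h x := rfl
  have hsc : scalQ N ρ x = 2 / ρ ‖x‖ ^ 2 - 3 / 2 * Hs N ρ x ^ 2 - 2 / N x * dr (Hs N ρ) x
    - 2 * lapS N x / (N x * ρ ‖x‖ ^ 2) := rfl
  have hdQ : dQ N ρ h x = ‖x‖ / ρ ‖x‖ ^ 2 *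
      ((∑ i, pd i (fun y => N y * tanV h i y) x) / N x ^ 2) := by
    rw [dQ]
    field_simp
  rw [hdiv] at hdQ
  rw [tr_eq] at hmu
  rw [hH] at hJ
  rw [hdH, hH] at hsc
  have hid := ident (ρ ‖x‖) (deriv ρ ‖x‖) (deriv (deriv ρ) ‖x‖) (b ‖x‖)
    (deriv b ‖x‖) (N x) (dr N x) (hnu N h x) (lapS N x) (dQ N ρ h x) hr.ne' hN.ne'
  have hid2 := ident2 (ρ ‖x‖) (deriv ρ ‖x‖) (b ‖x‖) (deriv b ‖x‖) (N x) (dr N x) (hnu N h x)
    (dQ N ρ h x) (trSph ρ h x) (dr (trSph ρ h) x) hr.ne' hN.ne'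
  rw [← hsc, hid2, ← hJ] at hid
  have hG : Gf N ρ b x = _ := hid
  rw [hG]
  set r := ρ ‖x‖ with hrdef
  set r1 := deriv ρ ‖x‖ with hr1def
  set bb := b ‖x‖ with hbdef
  set M := muQ N ρ h x with hMdef
  set Jn := QP.Jnu N ρ h x with hJdef
  set VV := ∑ i, tanV h i x ^ 2 with hVV
  set VP := ∑ i, tanV h i x * pd i N x with hVP
  set RR := ∑ i, ∑ j, (x i * pd j N x - x j * pd i N x) ^ 2 with hRR
  set k := trSph ρ h x with hk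
  set Y := (dr (trSph ρ h) x - 2 * deriv b ‖x‖ / N x + 2 * bb * dr N x / N x ^ 2) / N x with hY
  have hr1 : 0 ≤ r1 := le_trans (by positivity) hw
  obtain ⟨e, he⟩ : ∃ e, e = k - 2 * bb / N x := ⟨_, rfl⟩
  rw [← he]
  have e1 : 2 * M + 2 * VV / (r ^ 2 * N x ^ 2) ≤
      (scalQ N ρ x + 4 * hnu N h x * bb / N x + 2 * bb ^ 2 / N x ^ 2) +
        (2 * hnu N h x * e + 2 * bb * e / N x + e ^ 2 / 2) := by
    have h1 : (hnu N h x + k) ^ 2 = hnu N h x ^ 2 + k ^ 2 / 2 +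
        (4 * hnu N h x * bb / N x + 2 * bb ^ 2 / N x ^ 2 +
        (2 * hnu N h x * e + 2 * bb * e / N x + e ^ 2 / 2)) := by
      rw [he]
      field_simp
      ring
    rw [h1] at hmu
    linarith
  have e2 := mul_le_mul_of_nonneg_left e1 (show 0 ≤ r ^ 2 * r1 / 4 by positivity)
  have e3 : r ^ 3 * bb / 2 * Jn ≤ r ^ 2 * r1 / 2 * M := by
    have h1 : bb * Jn ≤ |bb| * M := by
      calc bb * Jn ≤ |bb * Jn| := le_abs_self _
        _ = |bb| * |Jn| := abs_mul _ _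
        _ ≤ |bb| * M := mul_le_mul_of_nonneg_left hb (abs_nonneg _)
    have hM : 0 ≤ M := le_trans (abs_nonneg _) hb
    have h2 : r * |bb| * M ≤ r1 * M := mul_le_mul_of_nonneg_right hw hM
    have h3 : r ^ 3 * bb / 2 * Jn = r ^ 2 / 2 * (r * (bb * Jn)) := by ring
    have h4 : r * (bb * Jn) ≤ r1 * M := by
      calc r * (bb * Jn) ≤ r * (|bb| * M) := mul_le_mul_of_nonneg_left h1 hr.le
        _ = r * |bb| * M := by ring
        _ ≤ r1 * M := h2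
    rw [h3]
    calc r ^ 2 / 2 * (r * (bb * Jn)) ≤ r ^ 2 / 2 * (r1 * M) :=
          mul_le_mul_of_nonneg_left h4 (by positivity)
      _ = r ^ 2 * r1 / 2 * M := by ring
  have e4 : r ^ 3 * bb / 2 * dQ N ρ h x = r * bb * ‖x‖ / 2 * dv N h x +
      r * bb * ‖x‖ * VP / N x ^ 2 := by
    rw [hdQ]
    field_simp
  have e5 : r1 / 2 * lapS N x / N x = r1 / 4 * rr N x + r1 / 4 * RR / N x ^ 2 := by
    rw [mul_div_assoc, hlap]
    ring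
  have e6 : r ^ 2 * r1 / 4 * (2 * M + 2 * VV / (r ^ 2 * N x ^ 2)) =
      r ^ 2 * r1 / 2 * M + r1 / 2 * VV / N x ^ 2 := by
    field_simp
    ring
  have e7 : 0 ≤ (r1 / 2 * VV + r * bb * ‖x‖ * VP + r1 / 4 * RR) / N x ^ 2 :=
    div_nonneg hq (by positivity)
  have e8 : (r1 / 2 * VV + r * bb * ‖x‖ * VP + r1 / 4 * RR) / N x ^ 2 =
      r1 / 2 * VV / N x ^ 2 + r * bb * ‖x‖ * VP / N x ^ 2 + r1 / 4 * RR / N x ^ 2 := by ring
  have e9 : r ^ 2 * r1 / 4 * ((scalQ N ρ x + 4 * hnu N h x * bb / N x + 2 * bb ^ 2 / N x ^ 2) +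
        (2 * hnu N h x * e + 2 * bb * e / N x + e ^ 2 / 2)) =
      r ^ 2 * r1 / 4 * (scalQ N ρ x + 4 * hnu N h x * bb / N x + 2 * bb ^ 2 / N x ^ 2) +
      r ^ 2 * r1 / 4 * (2 * hnu N h x * e + e ^ 2 / 2) + r ^ 2 * r1 * bb * e / (2 * N x) := by
    field_simp
    ring
  have e10 : r ^ 3 * bb / 2 * (Jn + r1 / (r * N x) * e + Y) =
      r ^ 3 * bb / 2 * Jn + r ^ 2 * r1 * bb * e / (2 * N x) + r ^ 3 * bb / 2 * Y := by
    field_simp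
  have e11 : r ^ 2 * r1 * bb * e / N x = r ^ 2 * r1 * bb * e / (2 * N x) +
      r ^ 2 * r1 * bb * e / (2 * N x) := by
    field_simp
    ring
  rw [e4, e5, e10, e11]
  rw [e6, e9] at e2
  rw [e8] at e7
  linarith

end

end Pool.Agent.H921.QW
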