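import Pool.Agent.H921.QW.B

/-!
# Quasi-spherical data without a condition on the trace of `h`: means
-/

set_option autoImplicit false

namespace Pool.Agent.H921.QW

open Filter Topology MeasureTheory Pool.Agent.N795.PI Pool.Agent.N774.PIA Pool.Agent.H921.QP

variable {N : E3 → ℝ} {ρ : ℝ → ℝ} {h : Fin 3 → Fin 3 → E3 → ℝ} {t0 m : ℝ}

lemma dr_div {F G : E3 → ℝ} {x : E3} (hF : DifferentiableAt ℝ F x) (hG : DifferentiableAt ℝ G x)
    (h0 : G x ≠ 0) : dr (fun y => F y / G y) x = dr F x / G x - F x * dr G x / G x ^ 2 := by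
  unfold dr
  rw [← pd_sum_ray, ← pd_sum_ray, ← pd_sum_ray]
  simp only [pd_div' hF hG h0, Fin.sum_univ_three]
  ring

lemma co_dr {F : E3 → ℝ} (hF : ∀ x : E3, x ≠ 0 → ContDiffAt ℝ 1 F x) : CO (dr F) := by
  intro x hx
  have h1 : ContDiffAt ℝ 0 (fderiv ℝ F) x := (hF x hx).fderiv_right (by norm_num)
  have h2 : ContinuousAt (fun y => fderiv ℝ F y y) x := h1.continuousAt.clm_apply continuousAt_id
  exact h2.div continuousAt_id.norm (norm_ne_zero_iff.2 hx)

section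
variable (D : IsQW N ρ h t0 m)
include D

lemma IsQW.qq_pos {t : ℝ} (ht : 0 < t) : 0 < qq N t := by
  have hne : (Metric.sphere (0 : E3) t).Nonempty := ⟨t • e0, by
    rw [mem_sphere_zero_iff_norm, norm_te0 ht]⟩
  have hnz : ∀ x ∈ Metric.sphere (0 : E3) t, x ≠ 0 := fun x hx => by
    rw [mem_sphere_zero_iff_norm] at hx
    rw [← norm_pos_iff, hx]
    exact ht
  obtain ⟨x0, hx0, hmin⟩ := (isCompact_sphere (0 : E3) t).exists_isMinOn hne
    (f := fun x => (N x ^ 2)⁻¹) (fun x hx => (D.co_q x (hnz x hx)).continuousWithinAt)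
  have h1 : mean (fun _ => (N x0 ^ 2)⁻¹) t ≤ qq N t :=
    mean_mono (cc _) D.co_q ht fun x hx => hmin (by rw [mem_sphere_zero_iff_norm]; exact hx)
  rw [mean_const] at h1
  have h2 := D.posN x0 (hnz x0 hx0)
  exact lt_of_lt_of_le (by positivity) h1

lemma IsQW.c1K (x : E3) (hx : x ≠ 0) : ContDiffAt ℝ 1 (fun y => trSph ρ h y / N y) x :=
  (D.ctr hx).div (D.c1N x hx) (D.posN x hx).ne'

lemma IsQW.hkm {t : ℝ} (ht : 0 < t) :
    HasDerivAt (mean (fun x => trSph ρ h x / N x)) (mean (fun x => dr (trSph ρ h) x / N x -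
      trSph ρ h x * dr N x / N x ^ 2) t) t := by
  have h1 := mean_deriv D.c1K ht
  have h2 : ∫ w : S2, fderiv ℝ (fun x => trSph ρ h x / N x) (t • (w : E3)) (w : E3) ∂nu =
      mean (fun x => dr (trSph ρ h) x / N x - trSph ρ h x * dr N x / N x ^ 2) t := by
    rw [mean_eq]
    refine integral_congr_ae (Eventually.of_forall fun w => ?_)
    change fderiv ℝ (fun x => trSph ρ h x / N x) (t • (w : E3)) (w : E3) =
      dr (trSph ρ h) (t • (w : E3)) / N (t • (w : E3)) - trSph ρ h (t • (w : E3)) *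
        dr N (t • (w : E3)) / N (t • (w : E3)) ^ 2
    have hne := tw_ne ht w
    rw [← dr_tw ht w, dr_div ((D.ctr hne).differentiableAt (by norm_num)) (D.dN hne)
      (D.posN _ hne).ne']
  rw [h2] at h1
  exact h1

lemma IsQW.hkap {t : ℝ} (ht : 0 < t) : HasDerivAt (kap N ρ h) (deriv (kap N ρ h) t) t := by
  have h1 := (D.hkm ht).fun_div ((D.hqq ht).const_mul 2)
    (mul_ne_zero two_ne_zero (D.qq_pos ht).ne')
  exact h1.differentiableAt.hasDerivAt

lemma IsQW.kap_eq {t : ℝ} (ht : 0 < t) :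
    kap N ρ h t * (2 * qq N t) = mean (fun x => trSph ρ h x / N x) t := by
  rw [kap, div_mul_cancel₀ _ (mul_ne_zero two_ne_zero (D.qq_pos ht).ne')]

lemma IsQW.kap_rel {t : ℝ} (ht : 0 < t) :
    deriv (kap N ρ h) t * (2 * qq N t) +
      kap N ρ h t * (2 * (-2 * mean (fun x => dr N x / N x ^ 3) t)) =
      mean (fun x => dr (trSph ρ h) x / N x - trSph ρ h x * dr N x / N x ^ 2) t := by
  have h1 := (D.hkap ht).fun_mul ((D.hqq ht).const_mul 2)
  have h2 : (fun s => kap N ρ h s * (2 * qq N s)) =ᶠ[𝓝 t] mean (fun x => trSph ρ h x / N x) := by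
    filter_upwards [lt_mem_nhds ht] with s hs
    exact D.kap_eq hs
  exact h1.unique ((D.hkm ht).congr_of_eventuallyEq h2)

lemma IsQW.co_k : CO (trSph ρ h) := fun x hx => (D.ctr hx).continuousAt

lemma IsQW.co_N : CO N := fun x hx => (D.c1N x hx).continuousAt

lemma IsQW.co_hnu : CO (hnu N h) := fun x hx =>
  ((cd_lam D.ten hx).continuousAt).div ((D.co_N x hx).pow 2) (pow_ne_zero 2 (D.posN x hx).ne')

lemma IsQW.co_dk : CO (dr (trSph ρ h)) := co_dr fun _ hx => D.ctr hx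

lemma IsQW.co_dN : CO (dr N) := co_dr D.c1N

theorem IsQW.mb_nonneg {t : ℝ} (ht : 0 < t) (htt : t0 < t)
    (hw : ρ t * |kap N ρ h t| ≤ deriv ρ t) (ha : avg N ρ h t ≤ 0) :
    0 ≤ mean (Gf N ρ (kap N ρ h)) t := by
  set b := kap N ρ h with hb
  have h2 : mean (Gf N ρ b) t = mean (fun x => deriv ρ t / 2 +
        ((-(deriv ρ t / 2 * (deriv ρ t ^ 2 - ρ t ^ 2 * b t ^ 2)) - ρ t / 2 *
        (2 * deriv ρ t * deriv (deriv ρ) t - 2 * ρ t * deriv ρ t * b t ^ 2
          - 2 * ρ t ^ 2 * b t * deriv b t)) * (N x ^ 2)⁻¹ +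
        ρ t * (deriv ρ t ^ 2 - ρ t ^ 2 * b t ^ 2) * (dr N x / N x ^ 3))) t := by
    refine mean_congr ht fun x hx => ?_
    have hx0 : x ≠ 0 := by
      rw [← norm_pos_iff, hx]
      exact ht
    have hN := (D.posN x hx0).ne'
    rw [Gf, hx]
    field_simp
    ring
  -- the functions on the sphere
  obtain ⟨e, he⟩ : ∃ e : E3 → ℝ, e = fun x => trSph ρ h x + (-(2 * b t)) * (N x)⁻¹ := ⟨_, rfl⟩
  obtain ⟨A, hA⟩ : ∃ A : E3 → ℝ, A = fun x => deriv ρ t * (2 * (hnu N h x * e x) + e x ^ 2 / 2) +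
    2 * ρ t * b t * (e x * (dr N x * (N x ^ 2)⁻¹)) := ⟨_, rfl⟩
  obtain ⟨V, hV⟩ : ∃ V : E3 → ℝ, V = fun x => trSph ρ h x / N x + (-(2 * b t)) * (N x ^ 2)⁻¹ :=
    ⟨_, rfl⟩
  obtain ⟨W, hW⟩ : ∃ W : E3 → ℝ, W = fun x => (dr (trSph ρ h) x / N x -
    trSph ρ h x * dr N x / N x ^ 2) + ((-(2 * deriv b t)) * (N x ^ 2)⁻¹ +
      4 * b t * (dr N x / N x ^ 3)) := ⟨_, rfl⟩
  have cinv : CO (fun x => (N x)⁻¹) := fun x hx => (D.co_N x hx).inv₀ (D.posN x hx).ne'
  have ce : CO e := by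
    rw [he]
    exact ca D.co_k (cm _ cinv)
  have cA : CO A := by
    rw [hA]
    exact ca (cm _ (ca (cm _ (cmul D.co_hnu ce)) (cd2 (c2 ce))))
      (cm _ (cmul ce (cmul D.co_dN D.co_q)))
  have cV1 : CO (fun x => trSph ρ h x / N x) := fun x hx => (D.c1K x hx).continuousAt
  have cV : CO V := by
    rw [hV]
    exact ca cV1 (cm _ D.co_q)
  have cW1 : CO (fun x => dr (trSph ρ h) x / N x - trSph ρ h x * dr N x / N x ^ 2) := fun x hx =>
    ((D.co_dk x hx).div (D.co_N x hx) (D.posN x hx).ne').sub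
      (((D.co_k x hx).mul (D.co_dN x hx)).div ((D.co_N x hx).pow 2)
        (pow_ne_zero 2 (D.posN x hx).ne'))
  have cW : CO W := by
    rw [hW]
    exact ca cW1 (ca (cm _ D.co_q) (cm _ D.co_dr3))
  have mA : mean A t = avg N ρ h t := by
    rw [avg]
    refine mean_congr ht fun x hx => ?_
    rw [hA, he, dev, hx]
    simp only [hb, div_eq_mul_inv]
    ring
  have mV : mean V t = 0 := by
    rw [hV, mean_add cV1 (cm _ D.co_q) ht, mean_smul, ← D.kap_eq ht]
    have h1 : mean (fun x => (N x ^ 2)⁻¹) t = qq N t := rfl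
    rw [h1]
    ring
  have mW : mean W t = 0 := by
    rw [hW, mean_add cW1 (ca (cm _ D.co_q) (cm _ D.co_dr3)) ht,
      mean_add (cm _ D.co_q) (cm _ D.co_dr3) ht, mean_smul, mean_smul, ← D.kap_rel ht]
    have h1 : mean (fun x => (N x ^ 2)⁻¹) t = qq N t := rfl
    rw [h1]
    ring
  have h3 : mean (fun x => ρ t * b t * t / 2 * dv N h x + (deriv ρ t / 4 * rr N x +
      (-(ρ t ^ 2 / 4) * A x + (-(ρ t ^ 2 * deriv ρ t * b t) * V x +
        (-(ρ t ^ 3 * b t / 2)) * W x)))) t = -(ρ t ^ 2 / 4) * avg N ρ h t := by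
    have c4 := cm (-(ρ t ^ 3 * b t / 2)) cW
    have c3 := ca (cm (-(ρ t ^ 2 * deriv ρ t * b t)) cV) c4
    have c2' := ca (cm (-(ρ t ^ 2 / 4)) cA) c3
    have c1 := ca (cm (deriv ρ t / 4) D.co_rr) c2'
    rw [mean_add (cm _ D.co_dv) c1 ht, mean_add (cm _ D.co_rr) c2' ht,
      mean_add (cm _ cA) c3 ht, mean_add (cm _ cV) c4 ht, mean_smul, mean_smul, mean_smul,
      mean_smul, mean_smul, D.mean_dv ht, D.mean_rr ht, mA, mV, mW]
    ring
  have h5 : 0 ≤ -(ρ t ^ 2 / 4) * avg N ρ h t := by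
    have h6 := sq_nonneg (ρ t)
    nlinarith
  refine h5.trans ?_
  rw [← h3, h2]
  refine mean_mono (ca (cm _ D.co_dv) (ca (cm _ D.co_rr) (ca (cm _ cA) (ca (cm _ cV) (cm _ cW)))))
    (ca (cc _) (ca (cm _ D.co_q) (cm _ D.co_dr3))) ht fun x hx => ?_
  have hx0 : x ≠ 0 := by
    rw [← norm_pos_iff, hx]
    exact ht
  have hN := (D.posN x hx0).ne'
  have h4 := D.ptw hx0 (by rw [hx]; exact htt) b (by rw [hx]; exact hw)
  rw [hx] at h4
  have h7 : Gf N ρ b x = deriv ρ t / 2 +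
        ((-(deriv ρ t / 2 * (deriv ρ t ^ 2 - ρ t ^ 2 * b t ^ 2)) - ρ t / 2 *
        (2 * deriv ρ t * deriv (deriv ρ) t - 2 * ρ t * deriv ρ t * b t ^ 2
          - 2 * ρ t ^ 2 * b t * deriv b t)) * (N x ^ 2)⁻¹ +
        ρ t * (deriv ρ t ^ 2 - ρ t ^ 2 * b t ^ 2) * (dr N x / N x ^ 3)) := by
    rw [Gf, hx]
    field_simp
    ring
  rw [← h7]
  refine le_trans (le_of_eq ?_) h4
  rw [hA, hV, hW, he]
  beta_reduce
  field_simp
  ring

theorem IsQW.kap_bound : ∃ K T : ℝ, 0 ≤ K ∧ 1 ≤ T ∧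
    (∀ x : E3, T ≤ ‖x‖ → 1 / 2 ≤ N x) ∧
    ∀ t, T < t → ρ t = t ∧ deriv ρ t = 1 ∧ |kap N ρ h t| ≤ K / t ^ 2 := by
  obtain ⟨K, T, hK, hT, hr, hb⟩ := D.bound
  refine ⟨4 * K, T, by positivity, hT, fun x hx => (hb x hx).1, fun t ht => ⟨hr t ht.le, ?_, ?_⟩⟩
  · have h1 : ρ =ᶠ[𝓝 t] id := by
      filter_upwards [lt_mem_nhds ht] with s hs
      exact hr s hs.le
    rw [h1.deriv_eq]
    exact deriv_id t
  · have ht0 : 0 < t := by linarith
    have hp : ∀ x : E3, ‖x‖ = t → |trSph ρ h x / N x| ≤ 2 * K / t ^ 2 := by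
      intro x hx
      obtain ⟨h1, h2, h3⟩ := hb x (by rw [hx]; exact ht.le)
      rw [hx] at h3
      have hN0 : 0 < N x := by linarith
      rw [abs_div, abs_of_pos hN0, div_le_iff₀ hN0]
      have h4 : K / t ^ 2 ≤ 2 * K / t ^ 2 * N x := by
        have h5 : 0 ≤ K / t ^ 2 := by positivity
        have h6 : 2 * K / t ^ 2 * N x = K / t ^ 2 * (2 * N x) := by ring
        rw [h6]
        nlinarith
      linarith
    have cV1 : CO (fun x => trSph ρ h x / N x) := fun x hx => (D.c1K x hx).continuousAt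
    have h1 : |mean (fun x => trSph ρ h x / N x) t| ≤ 2 * K / t ^ 2 := by
      rw [abs_le]
      constructor
      · have h2 : mean (fun _ => -(2 * K / t ^ 2)) t ≤ mean (fun x => trSph ρ h x / N x) t :=
          mean_mono (cc _) cV1 ht0 fun x hx => (abs_le.1 (hp x hx)).1
        rwa [mean_const] at h2
      · have h2 : mean (fun x => trSph ρ h x / N x) t ≤ mean (fun _ => 2 * K / t ^ 2) t :=
          mean_mono cV1 (cc _) ht0 fun x hx => (abs_le.1 (hp x hx)).2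
        rwa [mean_const] at h2
    have h3 : 1 / 4 ≤ qq N t := by
      have h2 : mean (fun _ => (1 / 4 : ℝ)) t ≤ qq N t := by
        refine mean_mono (cc _) D.co_q ht0 fun x hx => ?_
        obtain ⟨h1, h2, _⟩ := hb x (by rw [hx]; exact ht.le)
        have hN0 : 0 < N x := by linarith
        rw [one_div, inv_le_inv₀ (by norm_num) (by positivity)]
        nlinarith
      rwa [mean_const] at h2
    have h4 : 0 < 2 * qq N t := by linarith
    rw [kap, abs_div, abs_of_pos h4, div_le_iff₀ h4]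
    have h5 : 0 ≤ K / t ^ 2 := by positivity
    have h6 : 2 * K / t ^ 2 = 2 * (K / t ^ 2) := by ring
    have h7 : 4 * K / t ^ 2 * (2 * qq N t) = 8 * (K / t ^ 2) * qq N t := by ring
    rw [h7]
    rw [h6] at h1
    nlinarith

theorem IsQW.main_of (hflux : ∀ T : ℝ, (∀ t, T ≤ t → ρ t = t) → ∀ t, 0 < t → T < t →
      flux N ρ t = mean (fun x => t / 2 * (N x ^ 2 - 1)) t)
    {t1 : ℝ} (ht1 : 0 < t1) (ht01 : t0 ≤ t1) (he : deriv ρ t1 = ρ t1 * |kap N ρ h t1|)
    (haft : ∀ t, t1 < t → ρ t * |kap N ρ h t| < deriv ρ t)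
    (havg : ∀ t, t1 < t → avg N ρ h t ≤ 0) : ρ t1 / 2 ≤ m := by
  obtain ⟨K, T, hK, hT, hN, hb⟩ := D.kap_bound
  obtain ⟨T0, hT0⟩ := D.endR
  have hmono : MonotoneOn (mb N ρ (kap N ρ h)) (Set.Ici t1) := by
    refine monotoneOn_of_deriv_nonneg (convex_Ici t1)
      (fun t ht => (D.hmb (ht1.trans_le ht) (D.hkap (ht1.trans_le ht))).continuousAt.continuousWithinAt) ?_ ?_
    · intro t ht
      rw [interior_Ici] at ht
      exact (D.hmb (ht1.trans ht) (D.hkap (ht1.trans ht))).differentiableAt.differentiableWithinAt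
    · intro t ht
      rw [interior_Ici] at ht
      rw [(D.hmb (ht1.trans ht) (D.hkap (ht1.trans ht))).deriv]
      exact D.mb_nonneg (ht1.trans ht) (lt_of_le_of_lt ht01 ht) (haft t ht).le (havg t ht)
  have h0 : mb N ρ (kap N ρ h) t1 = ρ t1 / 2 := by
    have h1 : deriv ρ t1 ^ 2 - ρ t1 ^ 2 * kap N ρ h t1 ^ 2 = 0 := by
      rw [he, mul_pow, sq_abs]
      ring
    rw [mb, h1]
    ring
  have hlim : Tendsto (fun t => flux N ρ t + 2 * K ^ 2 / t) atTop (𝓝 (m + 0)) := by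
    refine D.mass.add ?_
    exact tendsto_const_nhds.div_atTop tendsto_id
  rw [add_zero] at hlim
  refine ge_of_tendsto hlim ?_
  filter_upwards [eventually_gt_atTop (max (max T T0) t1)] with t ht
  have htT : T < t := lt_of_le_of_lt (le_trans (le_max_left _ _) (le_max_left _ _)) ht
  have htT0 : T0 < t := lt_of_le_of_lt (le_trans (le_max_right _ _) (le_max_left _ _)) ht
  have ht1' : t1 < t := lt_of_le_of_lt (le_max_right _ _) ht
  have htp : 0 < t := by linarith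
  obtain ⟨e1, e2, e3⟩ := hb t htT
  have h2 : ρ t1 / 2 ≤ mb N ρ (kap N ρ h) t := by
    rw [← h0]
    exact hmono (Set.mem_Ici.2 le_rfl) (Set.mem_Ici.2 ht1'.le) ht1'.le
  have h3 := hflux T0 hT0 t htp htT0
  have hq4 : qq N t ≤ 4 := by
    have h4 : qq N t ≤ mean (fun _ => 4) t := by
      refine mean_mono D.co_q (cc 4) htp fun x hx => ?_
      have h5 := hN x (by rw [hx]; exact htT.le)
      rw [inv_le_comm₀ (by positivity) (by norm_num)]
      nlinarith
    rwa [mean_const] at h4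
  have h6 : t / 2 * (1 - qq N t) ≤ flux N ρ t := by
    rw [h3]
    have h7 : t / 2 * (1 - qq N t) = mean (fun x => t / 2 + (-(t / 2)) * (N x ^ 2)⁻¹) t := by
      rw [mean_add (cc _) (cm _ D.co_q) htp, mean_smul, mean_const, qq]
      ring
    rw [h7]
    have hco : CO (fun x => N x ^ 2 - 1) := fun x hx =>
      ((D.c1N x hx).continuousAt.pow 2).sub continuousAt_const
    refine mean_mono (ca (cc _) (cm _ D.co_q)) (cm (t / 2) hco) htp fun x hx => ?_
    have hx0 : x ≠ 0 := by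
      rw [← norm_pos_iff, hx]
      exact htp
    have hNx := D.posN x hx0
    have h8 : 2 ≤ N x ^ 2 + (N x ^ 2)⁻¹ := by
      have h9 : 0 ≤ (N x - (N x)⁻¹) ^ 2 := sq_nonneg _
      have h10 : (N x - (N x)⁻¹) ^ 2 = N x ^ 2 + (N x ^ 2)⁻¹ - 2 := by
        field_simp
        ring
      linarith
    have h11 : t / 2 * (N x ^ 2 - 1) - (t / 2 + -(t / 2) * (N x ^ 2)⁻¹) =
        t / 2 * (N x ^ 2 + (N x ^ 2)⁻¹ - 2) := by ring
    have h12 : 0 ≤ t / 2 * (N x ^ 2 + (N x ^ 2)⁻¹ - 2) :=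
      mul_nonneg (by positivity) (by linarith)
    linarith
  have h7 : t ^ 3 * kap N ρ h t ^ 2 * qq N t / 2 ≤ 2 * K ^ 2 / t := by
    have h8 : kap N ρ h t ^ 2 ≤ (K / t ^ 2) ^ 2 := by
      rw [← sq_abs (kap N ρ h t)]
      exact pow_le_pow_left₀ (abs_nonneg _) e3 2
    have hq0 : 0 ≤ qq N t := by
      have h4 : mean (fun _ => (0 : ℝ)) t ≤ qq N t := by
        refine mean_mono (cc 0) D.co_q htp fun x hx => ?_
        positivity
      rwa [mean_const] at h4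
    calc t ^ 3 * kap N ρ h t ^ 2 * qq N t / 2 ≤ t ^ 3 * (K / t ^ 2) ^ 2 * 4 / 2 := by gcongr
      _ = 2 * K ^ 2 / t := by
        field_simp
        ring
  have h8 : mb N ρ (kap N ρ h) t = t / 2 * (1 - qq N t) + t ^ 3 * kap N ρ h t ^ 2 * qq N t / 2 := by
    rw [mb, e1, e2]
    ring
  linarith


theorem IsQW.last_of {s0 : ℝ} (hs0p : 0 < s0) (hs0 : deriv ρ s0 ≤ ρ s0 * |kap N ρ h s0|) :
    ∃ t1 : ℝ, s0 ≤ t1 ∧
    deriv ρ t1 = ρ t1 * |kap N ρ h t1| ∧ ∀ t, t1 < t → ρ t * |kap N ρ h t| < deriv ρ t := by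
  obtain ⟨K, T, hK, hT, -, hb⟩ := D.kap_bound
  have cg : ∀ t, 0 < t → ContinuousAt (fun t => deriv ρ t - ρ t * |kap N ρ h t|) t := fun t ht =>
    (D.hdR ht).continuousAt.sub ((D.hR ht).continuousAt.mul (D.hkap ht).continuousAt.abs)
  set S : Set ℝ := {t | 0 < t ∧ deriv ρ t - ρ t * |kap N ρ h t| ≤ 0} with hS
  have hbdd : BddAbove S := by
    refine ⟨max T K + 1, fun t ht => ?_⟩
    by_contra hlt
    have h1 : max T K + 1 < t := not_le.1 hlt
    have h2 : T < t := by linarith [le_max_left T K]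
    have h3 : K + 1 < t := by linarith [le_max_right T K]
    obtain ⟨e1, e2, e3⟩ := hb t h2
    have ht0 : 0 < t := ht.1
    have h4 : t * |kap N ρ h t| ≤ K / t := by
      calc t * |kap N ρ h t| ≤ t * (K / t ^ 2) := by gcongr
        _ = K / t := by field_simp
    have h5 : K / t < 1 := by
      rw [div_lt_one ht0]
      linarith
    have h6 := ht.2
    rw [e1, e2] at h6
    linarith
  have hs0' : s0 ∈ S := ⟨hs0p, by linarith⟩
  set t1 := sSup S with ht1
  have hs1 : s0 ≤ t1 := le_csSup hbdd hs0'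
  have ht1pos : 0 < t1 := hs0p.trans_le hs1
  have hafter : ∀ t, t1 < t → 0 < deriv ρ t - ρ t * |kap N ρ h t| := by
    intro t ht
    by_contra hcon
    have h1 : t ∈ S := ⟨ht1pos.trans ht, not_lt.1 hcon⟩
    exact absurd (le_csSup hbdd h1) (not_le.2 ht)
  have hle : deriv ρ t1 - ρ t1 * |kap N ρ h t1| ≤ 0 := by
    have hcl : t1 ∈ closure S := csSup_mem_closure ⟨s0, hs0'⟩ hbdd
    obtain ⟨u, hu1, hu2⟩ := mem_closure_iff_seq_limit.1 hcl
    have h1 := (cg t1 ht1pos).tendsto.comp hu2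
    exact le_of_tendsto h1 (Eventually.of_forall fun n => (hu1 n).2)
  have hge : 0 ≤ deriv ρ t1 - ρ t1 * |kap N ρ h t1| := by
    have h1 : Tendsto (fun t => deriv ρ t - ρ t * |kap N ρ h t|) (𝓝[>] t1)
        (𝓝 (deriv ρ t1 - ρ t1 * |kap N ρ h t1|)) :=
      (cg t1 ht1pos).tendsto.mono_left nhdsWithin_le_nhds
    refine ge_of_tendsto h1 ?_
    filter_upwards [self_mem_nhdsWithin] with t ht
    exact (hafter t ht).le
  exact ⟨t1, hs1, by linarith, fun t ht => by linarith [hafter t ht]⟩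


end

end Pool.Agent.H921.QW
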