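import Pool.Agent.H921.QX.Two

/-!
# Quasi-spherical data without a condition on the trace of `h`
-/

set_option autoImplicit false

namespace Pool.Agent.H921.QW

open Filter Topology MeasureTheory Pool.Agent.N795.PI Pool.Agent.N774.PIA Pool.Agent.H921.QP

/-- The data; the energy condition is assumed only for `|x| > t0`. -/
structure IsQW (N : E3 → ℝ) (ρ : ℝ → ℝ) (h : Fin 3 → Fin 3 → E3 → ℝ) (t0 m : ℝ) : Prop where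
  posN : ∀ x : E3, x ≠ 0 → 0 < N x
  posR : ∀ t : ℝ, 0 < t → 0 < ρ t
  smoothN : ∀ x : E3, x ≠ 0 → ContDiffAt ℝ ((⊤ : ℕ∞) : WithTop ℕ∞) N x
  smoothR : ∀ t : ℝ, 0 < t → ContDiffAt ℝ ((⊤ : ℕ∞) : WithTop ℕ∞) ρ t
  symm : ∀ i j x, h i j x = h j i x
  smoothH : ∀ i j x, x ≠ 0 → ContDiffAt ℝ ((⊤ : ℕ∞) : WithTop ℕ∞) (h i j) x
  dec : ∀ x, x ≠ 0 → t0 < ‖x‖ → |QP.Jnu N ρ h x| ≤ muQ N ρ h x
  endR : ∃ T : ℝ, ∀ t : ℝ, T ≤ t → ρ t = t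
  endN : ∃ C R : ℝ, ∀ x : E3, R ≤ ‖x‖ → |N x - 1| ≤ C / ‖x‖ ∧ ∀ i, |pd i N x| ≤ C / ‖x‖ ^ 2
  endH : ∃ C R : ℝ, ∀ x : E3, R ≤ ‖x‖ → ∀ i j, |h i j x| ≤ C / ‖x‖ ^ 2
  mass : Tendsto (flux N ρ) atTop (𝓝 m)

/-- `ρ |kap| / ρ' = |∫ H tr_S h| / ∫ H²` on the sphere of radius `t`: the mean of `N tr_S h / 2` with
the weight `N⁻²`. -/
noncomputable def kap (N : E3 → ℝ) (ρ : ℝ → ℝ) (h : Fin 3 → Fin 3 → E3 → ℝ) (t : ℝ) : ℝ :=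
  mean (fun x => trSph ρ h x / N x) t / (2 * qq N t)

/-- The deviation of `tr_S h` from a multiple of `H`. -/
noncomputable def dev (N : E3 → ℝ) (ρ : ℝ → ℝ) (h : Fin 3 → Fin 3 → E3 → ℝ) (x : E3) : ℝ :=
  trSph ρ h x - 2 * kap N ρ h ‖x‖ / N x

/-- The averaged condition. -/
noncomputable def avg (N : E3 → ℝ) (ρ : ℝ → ℝ) (h : Fin 3 → Fin 3 → E3 → ℝ) (t : ℝ) : ℝ :=
  mean (fun x => deriv ρ ‖x‖ * (2 * hnu N h x * dev N ρ h x + dev N ρ h x ^ 2 / 2) +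
    2 * ρ ‖x‖ * kap N ρ h ‖x‖ * dev N ρ h x * dr N x / N x ^ 2) t

end Pool.Agent.H921.QW
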