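import Pool.Agent.H921.QW.C

/-!
# Quasi-spherical data on an exterior region, averaged condition
-/

set_option autoImplicit false

namespace Pool.Agent.H921.QW

open Filter Topology MeasureTheory Pool.Agent.N795.PI Pool.Agent.N774.PIA Pool.Agent.H921.QP
  Pool.Agent.H921.QX

variable {N : E3 → ℝ} {ρ : ℝ → ℝ} {h : Fin 3 → Fin 3 → E3 → ℝ} {r0 m : ℝ}

theorem extendW (hr0 : 0 ≤ r0) (D : IsExt N ρ h r0 m) {r t0 : ℝ} (hr : r0 < r) (hrt : r < t0)
    (dec : ∀ x : E3, t0 < ‖x‖ → |QP.Jnu N ρ h x| ≤ muQ N ρ h x) :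
    ∃ (N' : E3 → ℝ) (ρ' : ℝ → ℝ) (h' : Fin 3 → Fin 3 → E3 → ℝ), IsQW N' ρ' h' t0 m ∧
      (∀ y, r < ‖y‖ → N' y = N y) ∧ (∀ t, r < t → ρ' t = ρ t) ∧
      ∀ i j y, r < ‖y‖ → h' i j y = h i j y := by
  have hr1 : 0 < (r0 + r) / 2 := by linarith
  have hr2 : (r0 + r) / 2 < r := by linarith
  have hr3 : r0 < (r0 + r) / 2 := by linarith
  obtain ⟨b, hb1, hb2⟩ : ∃ b : ContDiffBump (0 : E3), b.rIn = (r0 + r) / 2 ∧ b.rOut = r :=
    ⟨⟨(r0 + r) / 2, r, hr1, hr2⟩, rfl, rfl⟩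
  obtain ⟨c, hc1, hc2⟩ : ∃ c : ContDiffBump (0 : ℝ), c.rIn = (r0 + r) / 2 ∧ c.rOut = r :=
    ⟨⟨(r0 + r) / 2, r, hr1, hr2⟩, rfl, rfl⟩
  have bz : ∀ x : E3, r ≤ ‖x‖ → b x = 0 := fun x hx =>
    b.zero_of_le_dist (by rw [hb2, dist_zero_right]; exact hx)
  have cz : ∀ t : ℝ, r ≤ t → c t = 0 := fun t ht =>
    c.zero_of_le_dist (by
      rw [hc2, dist_zero_right, Real.norm_eq_abs]
      exact ht.trans (le_abs_self t))
  have bo : ∀ x : E3, ‖x‖ ≤ r0 → (b : E3 → ℝ) =ᶠ[𝓝 x] 1 := fun x hx =>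
    b.eventuallyEq_one_of_mem_ball (by
      rw [hb1, mem_ball_zero_iff]
      linarith)
  have cOne : ∀ t : ℝ, 0 < t → t ≤ r0 → (c : ℝ → ℝ) =ᶠ[𝓝 t] 1 := fun t ht0 ht =>
    c.eventuallyEq_one_of_mem_ball (by
      rw [hc1, mem_ball_zero_iff, Real.norm_eq_abs, abs_of_pos ht0]
      linarith)
  have hN : ∀ y : E3, r ≤ ‖y‖ → (1 - b y) * N y + b y = N y := fun y hy => by
    rw [bz y hy]
    ring
  have hR : ∀ t : ℝ, r ≤ t → (1 - c t) * ρ t + c t = ρ t := fun t ht => by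
    rw [cz t ht]
    ring
  have hH : ∀ (i j : Fin 3) (y : E3), r ≤ ‖y‖ → (1 - b y) * h i j y = h i j y := fun i j y hy => by
    rw [bz y hy]
    ring
  have hN' : ∀ y : E3, r < ‖y‖ → (fun y : E3 => (1 - b y) * N y + b y) y = N y :=
    fun y hy => hN y hy.le
  have hR' : ∀ t : ℝ, r < t → (fun t : ℝ => (1 - c t) * ρ t + c t) t = ρ t := fun t ht => hR t ht.le
  have hH' : ∀ (i j : Fin 3) (y : E3), r < ‖y‖ →
      (fun (i j : Fin 3) (y : E3) => (1 - b y) * h i j y) i j y = h i j y :=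
    fun i j y hy => hH i j y hy.le
  refine ⟨fun y => (1 - b y) * N y + b y, fun t => (1 - c t) * ρ t + c t,
    fun i j y => (1 - b y) * h i j y, ?_, hN', hR', hH'⟩
  constructor
  · intro x hx
    rcases le_or_gt ‖x‖ r0 with h1 | h1
    · have h2 : b x = 1 := (bo x h1).eq_of_nhds
      simp only [h2]
      norm_num
    · exact comb_pos b.nonneg b.le_one (D.posN x h1)
  · intro t ht
    rcases le_or_gt t r0 with h1 | h1
    · have h2 : c t = 1 := (cOne t ht h1).eq_of_nhds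
      simp only [h2]
      norm_num
    · exact comb_pos c.nonneg c.le_one (D.posR t h1)
  · intro x hx
    rcases le_or_gt ‖x‖ r0 with h1 | h1
    · have h2 : (fun y : E3 => (1 - b y) * N y + b y) =ᶠ[𝓝 x] fun _ => (1 : ℝ) := by
        filter_upwards [bo x h1] with y hy
        rw [hy]
        simp
      exact contDiffAt_const.congr_of_eventuallyEq h2
    · exact ((contDiffAt_const.sub b.contDiff.contDiffAt).mul (D.smoothN x h1)).add
        b.contDiff.contDiffAt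
  · intro t ht
    rcases le_or_gt t r0 with h1 | h1
    · have h2 : (fun y : ℝ => (1 - c y) * ρ y + c y) =ᶠ[𝓝 t] fun _ => (1 : ℝ) := by
        filter_upwards [cOne t ht h1] with y hy
        rw [hy]
        simp
      exact contDiffAt_const.congr_of_eventuallyEq h2
    · exact ((contDiffAt_const.sub c.contDiff.contDiffAt).mul (D.smoothR t h1)).add
        c.contDiff.contDiffAt
  · intro i j x
    rcases le_or_gt ‖x‖ r0 with h1 | h1
    · have h2 : b x = 1 := (bo x h1).eq_of_nhds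
      simp only [h2]
      norm_num
    · change (1 - b x) * h i j x = (1 - b x) * h j i x
      rw [D.symm i j x h1]
  · intro i j x hx
    rcases le_or_gt ‖x‖ r0 with h1 | h1
    · have h2 : (fun y : E3 => (1 - b y) * h i j y) =ᶠ[𝓝 x] fun _ => (0 : ℝ) := by
        filter_upwards [bo x h1] with y hy
        rw [hy]
        simp
      exact contDiffAt_const.congr_of_eventuallyEq h2
    · exact (contDiffAt_const.sub b.contDiff.contDiffAt).mul (D.smoothH i j x h1)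
  · intro x hx hxt
    have h1 : r < ‖x‖ := hrt.trans hxt
    rw [Jnu_on hN' hR' hH' x h1, muQ_on hN' hR' hH' x h1]
    exact dec x hxt
  · obtain ⟨T, hT⟩ := D.endR
    refine ⟨max T r, fun t ht => ?_⟩
    simp only [hR t ((le_max_right _ _).trans ht)]
    exact hT t ((le_max_left _ _).trans ht)
  · obtain ⟨C, R, hC⟩ := D.endN
    refine ⟨C, max R (r + 1), fun x hx => ?_⟩
    have h1 : r < ‖x‖ := by
      have := (le_max_right _ _).trans hx
      linarith
    have h2 := hC x ((le_max_left _ _).trans hx)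
    refine ⟨?_, fun i => ?_⟩
    · simp only [hN x h1.le]
      exact h2.1
    · rw [pd_on hN' i x h1]
      exact h2.2 i
  · obtain ⟨C, R, hC⟩ := D.endH
    refine ⟨C, max R r, fun x hx i j => ?_⟩
    simp only [hH i j x ((le_max_right _ _).trans hx)]
    exact hC x ((le_max_left _ _).trans hx) i j
  · refine D.mass.congr' ?_
    filter_upwards [eventually_gt_atTop (max 0 r)] with t ht
    exact (flux_on hN' hR' (lt_of_le_of_lt (le_max_left _ _) ht)
      (lt_of_le_of_lt (le_max_right _ _) ht)).symm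

section
variable {r : ℝ} {N N' : E3 → ℝ} {ρ ρ' : ℝ → ℝ} {h h' : Fin 3 → Fin 3 → E3 → ℝ}
  (hN : ∀ y, r < ‖y‖ → N' y = N y) (hR : ∀ t, r < t → ρ' t = ρ t)
  (hH : ∀ i j y, r < ‖y‖ → h' i j y = h i j y)

include hN in
lemma qq_on {t : ℝ} (ht0 : 0 < t) (ht : r < t) : qq N' t = qq N t := by
  unfold qq
  exact mean_congr ht0 fun x hx => by rw [hN x (by rw [hx]; exact ht)]

include hN hR hH in
lemma kap_on {t : ℝ} (ht0 : 0 < t) (ht : r < t) : kap N' ρ' h' t = kap N ρ h t := by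
  unfold kap
  rw [qq_on hN ht0 ht]
  congr 1
  exact mean_congr ht0 fun x hx => by
    rw [hN x (by rw [hx]; exact ht), trSph_on hR hH x (by rw [hx]; exact ht)]

include hN hR hH in
lemma avg_on {t : ℝ} (ht0 : 0 < t) (ht : r < t) : avg N' ρ' h' t = avg N ρ h t := by
  unfold avg
  refine mean_congr ht0 fun x hx => ?_
  have hx1 : r < ‖x‖ := by rw [hx]; exact ht
  have h1 : dev N' ρ' h' x = dev N ρ h x := by
    unfold dev
    rw [hN x hx1, trSph_on hR hH x hx1, hx, kap_on hN hR hH ht0 ht]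
  rw [h1, hx, kap_on hN hR hH ht0 ht, hN x hx1, hR t ht, deriv_on hR t ht, hnu_on hN hH x hx1,
    dr_on hN x hx1]

end

/-- the last sphere that is not untrapped in the mean -/
theorem sphereW (hr0 : 0 ≤ r0) (D : IsExt N ρ h r0 m) {s : ℝ} (hs : r0 < s)
    (dec : ∀ y : E3, s < ‖y‖ → |QP.Jnu N ρ h y| ≤ muQ N ρ h y)
    (havg : ∀ t : ℝ, s < t → ρ t * |kap N ρ h t| ≤ deriv ρ t → avg N ρ h t ≤ 0)
    (hst : deriv ρ s ≤ ρ s * |kap N ρ h s|) :
    ∃ t1 : ℝ, s ≤ t1 ∧ deriv ρ t1 = ρ t1 * |kap N ρ h t1| ∧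
      (∀ t : ℝ, t1 < t → ρ t * |kap N ρ h t| < deriv ρ t) ∧ ρ t1 / 2 ≤ m := by
  have hsp : 0 < s := lt_of_le_of_lt hr0 hs
  obtain ⟨N', ρ', h', D', hN', hR', hH'⟩ := extendW hr0 D (r := (r0 + s) / 2) (t0 := s)
    (by linarith) (by linarith) dec
  have hrs : (r0 + s) / 2 < s := by linarith
  have hst' : deriv ρ' s ≤ ρ' s * |kap N' ρ' h' s| := by
    rw [hR' s hrs, deriv_on hR' s hrs, kap_on hN' hR' hH' hsp hrs]
    exact hst
  obtain ⟨t1, hle, he, haft⟩ := D'.last_of hsp hst'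
  have ht1 : 0 < t1 := hsp.trans_le hle
  have hrt1 : (r0 + s) / 2 < t1 := hrs.trans_le hle
  have haft' : ∀ t : ℝ, t1 < t → ρ t * |kap N ρ h t| < deriv ρ t := by
    intro t ht
    have h1 := haft t ht
    have hrt : (r0 + s) / 2 < t := hrt1.trans ht
    rwa [hR' t hrt, deriv_on hR' t hrt, kap_on hN' hR' hH' (ht1.trans ht) hrt] at h1
  have hm := D'.main_of (fun _ hT _ ht hTt => flux_eq (fun _ hx => D'.dN hx) hT ht hTt) ht1 hle he
    haft (fun t ht => by
      rw [avg_on hN' hR' hH' (ht1.trans ht) (hrt1.trans ht)]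
      exact havg t (lt_of_le_of_lt hle ht) (haft' t ht).le)
  rw [hR' t1 hrt1] at hm
  refine ⟨t1, hle, ?_, haft', hm⟩
  rw [hR' t1 hrt1, deriv_on hR' t1 hrt1, kap_on hN' hR' hH' ht1 hrt1] at he
  exact he

/-- if the spheres become large at the inner boundary, one of them has `ρ' ≤ 0` -/
theorem exists_small (hr0 : 0 ≤ r0) (D : IsExt N ρ h r0 m)
    (hin : Tendsto ρ (𝓝[>] r0) atTop) : ∃ s : ℝ, r0 < s ∧ deriv ρ s ≤ ρ s * |kap N ρ h s| := by
  by_contra hcon
  push Not at hcon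
  have hdiff : ∀ t, r0 < t → DifferentiableAt ℝ ρ t := fun t ht =>
    (D.smoothR t ht).differentiableAt (by
      intro h0
      exact absurd h0 (by simp))
  have hpos : ∀ t, r0 < t → 0 < deriv ρ t := fun t ht =>
    lt_of_le_of_lt (mul_nonneg (D.posR t ht).le (abs_nonneg _)) (hcon t ht)
  have hmono : MonotoneOn ρ (Set.Ioi r0) := by
    refine monotoneOn_of_deriv_nonneg (convex_Ioi r0)
      (fun t ht => (hdiff t ht).continuousAt.continuousWithinAt) ?_ ?_
    · intro t ht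
      rw [interior_Ioi] at ht
      exact (hdiff t ht).differentiableWithinAt
    · intro t ht
      rw [interior_Ioi] at ht
      exact (hpos t ht).le
  have h1 : ∀ᶠ t in 𝓝[>] r0, ρ (r0 + 1) + 1 ≤ ρ t := hin.eventually_ge_atTop _
  have h2 : ∀ᶠ t in 𝓝[>] r0, t ∈ Set.Ioo r0 (r0 + 1) := Ioo_mem_nhdsGT (by linarith)
  obtain ⟨t, h3, h4⟩ := (h1.and h2).exists
  have h5 := hmono (Set.mem_Ioi.2 h4.1) (Set.mem_Ioi.2 (by linarith : r0 < r0 + 1)) h4.2.le
  linarith

end Pool.Agent.H921.QW
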